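import Mathlib
import Pool.Agent.Helper500_SM.CritB
import Pool.Agent.Helper500_SM.Defs

/-!
# A soft criterion for symplectic isotopies of `Σ × S²`

Let `N` be a compact surface with an area form `σ`, let `lam > 0` and let
`om = lam * pr₁^* σ + pr₂^* σ_S` on `N × S²`, with `σ_S` the round area form of total area one.
A symplectomorphism `f` of `(N × S², om)` is isotopic to the identity through symplectomorphisms
if and only if it is isotopic to the identity through diffeomorphisms `Φ_t` for which, at each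
time, the spheres `Φ_t ({z} × S²)` and at least one surface `Φ_t (N × {x})` are positively
symplectic. Nothing is assumed on the genus of `N` or on the ratio `lam`.
-/

open scoped Topology ContDiff Manifold
open Set Metric Bundle

noncomputable section

namespace Pool.Agent.Results.MP_bb2326_gt.SoftIsotopyCriterion

open Pool.Agent.Helper500_SM Pool.Agent.Helper186

set_option linter.unusedSectionVars false

variable {N : Type} [TopologicalSpace N] [ChartedSpace E2 N] [IsManifold (𝓡 2) ∞ N]

lemma mfderiv_fibre {F : N × S2 → N × S2} (hF : ContMDiff IM IM ∞ F) (z : N) (x : S2) (u : E2) :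
    mfderiv (𝓡 2) IM (fun y : S2 => F (z, y)) x u =
      mfderiv IM IM F (z, x) (((0 : E2), u) : E2 × E2) := by
  have h1 : HasMFDerivAt (𝓡 2) IM (fun y : S2 => (z, y)) x
      ((0 : E2 →L[ℝ] E2).prod (ContinuousLinearMap.id ℝ E2)) :=
    (hasMFDerivAt_const z x).prodMk (hasMFDerivAt_id x)
  have h2 := HasMFDerivAt.comp x (hF.mdifferentiableAt (by simp) (x := (z, x))).hasMFDerivAt h1
  have h3 := h2.mfderiv
  exact DFunLike.congr_fun h3 u

lemma mfderiv_section {F : N × S2 → N × S2} (hF : ContMDiff IM IM ∞ F) (z : N) (x : S2) (u : E2) :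
    mfderiv (𝓡 2) IM (fun y : N => F (y, x)) z u =
      mfderiv IM IM F (z, x) ((u, (0 : E2)) : E2 × E2) := by
  have h1 : HasMFDerivAt (𝓡 2) IM (fun y : N => (y, x)) z
      ((ContinuousLinearMap.id ℝ E2).prod (0 : E2 →L[ℝ] E2)) :=
    (hasMFDerivAt_id z).prodMk (hasMFDerivAt_const x z)
  have h2 := HasMFDerivAt.comp z (hF.mdifferentiableAt (by simp) (x := (z, x))).hasMFDerivAt h1
  have h3 := h2.mfderiv
  exact DFunLike.congr_fun h3 u

lemma alt_of {σ : (z : N) → TangentSpace (𝓡 2) z →L[ℝ] TangentSpace (𝓡 2) z →L[ℝ] ℝ}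
    (h : ∀ z v, σ z v v = 0) (z : N) (v w : TangentSpace (𝓡 2) z) : σ z v w = - σ z w v := by
  have h1 := h z (v + w)
  simp only [map_add, add_apply, h z v, h z w] at h1
  linarith

lemma deriv_bij {F : N × S2 → N × S2} (h : ∃ e : (N × S2) ≃ₘ^∞⟮IM, IM⟯ (N × S2), ∀ p, e p = F p)
    (p : N × S2) : Function.Bijective (mfderiv IM IM F p) := by
  obtain ⟨e, he⟩ := h
  have h1 : (e : N × S2 → N × S2) = F := funext he
  rw [← h1]
  exact (e.mfderivToContinuousLinearEquiv (by simp) p).bijective

lemma omega_eq (σ : (z : N) → TangentSpace (𝓡 2) z →L[ℝ] TangentSpace (𝓡 2) z →L[ℝ] ℝ) (lam : ℝ)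
    (p : N × S2) (u v : TangentSpace IM p) :
    omega (𝓡 2) (𝓡 2) (fun z a b => σ z a b) sph lam p u v = prodForm σ lam p u v := by
  have h : prodForm σ lam p u v = lam * pull2 IM (𝓡 2) Prod.fst σ p u v +
    pull2 IM (𝓡 2) Prod.snd sphArea p u v := rfl
  rw [h, pull2_apply, pull2_apply, sphArea_eq_sph]
  rfl

/-- **A soft criterion.** Let `N` be a compact surface with area form `σ` and `lam > 0`. A
symplectomorphism `f` of `(N × S², lam * σ ⊕ σ_S)` is isotopic to the identity through
symplectomorphisms if and only if it is isotopic to the identity through diffeomorphisms `Φ_t`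
such that at each time all the spheres `Φ_t ({z} × S²)` and at least one of the surfaces
`Φ_t (N × {x})` are positively symplectic. -/
theorem result [T2Space N] [CompactSpace N]
    (σ : (z : N) → TangentSpace (𝓡 2) z → TangentSpace (𝓡 2) z → ℝ)
    (hσ : IsAreaForm (𝓡 2) σ) (lam : ℝ) (hlam : 0 < lam)
    (f : N × S2 → N × S2) (hf : SympP (𝓡 2) (𝓡 2) σ sph lam f) :
    SympIsotopicP (𝓡 2) (𝓡 2) σ sph lam f ↔ SoftIsotopicP (𝓡 2) (𝓡 2) σ sph lam f := by
  obtain ⟨hσs', hσb, hσa', hσn'⟩ := hσ
  choose B hB using hσb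
  obtain ⟨σ, rfl⟩ : ∃ σ' : (z : N) → TangentSpace (𝓡 2) z →L[ℝ] TangentSpace (𝓡 2) z →L[ℝ] ℝ,
      σ = fun z u v => σ' z u v := ⟨fun z => B z, by funext z u v; exact hB z u v⟩
  have hσa := alt_of (σ := σ) hσa'
  have hσn : ∀ z u, (∀ v, σ z u v = 0) → u = 0 := hσn'
  have hσs : Sm2 σ := fun x₀ X Y hX hY => hσs' x₀ X Y hX hY
  have hom' : omega (𝓡 2) (𝓡 2) (fun z u v => σ z u v) sph lam =
      fun p u v => prodForm σ lam p u v := by
    funext p u v
    exact omega_eq σ lam p u v
  unfold SympP at hf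
  unfold SympIsotopicP SoftIsotopicP
  rw [hom'] at hf ⊢
  constructor
  · rintro ⟨Φ, hΦ, hs⟩
    refine ⟨Φ, hΦ, fun t ht => ⟨fun z x u v huv => ?_, ?_⟩⟩
    · have h1 := mfderiv_fibre (contMDiff_slice hΦ.1 t) z x u
      have h2 := mfderiv_fibre (contMDiff_slice hΦ.1 t) z x v
      have h3 := (hs t ht).2 (z, x) (((0 : E2), u) : E2 × E2) (((0 : E2), v) : E2 × E2)
      have h4 : prodForm σ lam (z, x) (((0 : E2), u) : E2 × E2) (((0 : E2), v) : E2 × E2) =
        sph x u v := (om_v hσa (z, x) u v).trans (sphArea_eq_sph x u v)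
      have h5 := h3.trans h4
      refine lt_of_lt_of_eq huv (h5.symm.trans ?_)
      exact congrArg₂ (fun a b : E2 × E2 => prodForm σ lam (Φ (t, (z, x))) a b) h1.symm h2.symm
    · obtain ⟨x⟩ : Nonempty S2 := (NormedSpace.sphere_nonempty.2 zero_le_one).to_subtype
      refine ⟨x, fun z u v huv => ?_⟩
      have h1 := mfderiv_section (contMDiff_slice hΦ.1 t) z x u
      have h2 := mfderiv_section (contMDiff_slice hΦ.1 t) z x v
      have h3 := (hs t ht).2 (z, x) ((u, (0 : E2)) : E2 × E2) ((v, (0 : E2)) : E2 × E2)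
      have h4 : prodForm σ lam (z, x) ((u, (0 : E2)) : E2 × E2) ((v, (0 : E2)) : E2 × E2) =
        lam * σ z u v := om_h (z, x) u v
      have h5 := h3.trans h4
      refine lt_of_lt_of_eq (mul_pos hlam huv) (h5.symm.trans ?_)
      exact congrArg₂ (fun a b : E2 × E2 => prodForm σ lam (Φ (t, (z, x))) a b) h1.symm h2.symm
  · rintro ⟨Φ, ⟨hΦ, hd, h0, h1⟩, hp⟩
    have h1f : (fun p => Φ (1, p)) = f := funext h1
    obtain ⟨Ψ, Ψ', a1, a2, a3, a4, a5, a6, a7⟩ := critB hσs hσa hσn hlam hΦ h0
      (by
        intro p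
        refine ContinuousLinearMap.ext fun u => ContinuousLinearMap.ext fun v => ?_
        have h2 := hf.2 p u v
        rw [← h1f] at h2
        exact h2)
      (by
        intro t ht p u hu
        have hb := deriv_bij (hd t ht) p
        have hz : mfderiv IM IM (fun q => Φ (t, q)) p u = 0 := by
          refine nondeg_of_pf (B := prodForm σ lam (Φ (t, p))) ?_ ?_ ?_
          · exact fun v w => prodForm_alt hσa _ _ _
          · rw [pf_om hσa]
            exact mul_ne_zero (mul_ne_zero hlam.ne' (ne_of_nondeg (hσa _) (hσn _)))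
              (sph0 _)
          · intro w
            obtain ⟨v, hv⟩ := hb.2 w
            have := hu v
            rw [← hv]
            exact this
        apply hb.1
        rw [hz]
        exact (map_zero _).symm)
      (by
        intro t ht p u v huv
        have h2 := (hp t ht).1 p.1 p.2 u v (lt_of_lt_of_eq huv (sphArea_eq_sph _ _ _))
        have e1 := mfderiv_fibre (contMDiff_slice hΦ t) p.1 p.2 u
        have e2 := mfderiv_fibre (contMDiff_slice hΦ t) p.1 p.2 v
        refine lt_of_lt_of_eq h2 ?_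
        exact congrArg₂ (fun a b : E2 × E2 => prodForm σ lam (Φ (t, p)) a b) e1 e2)
      (by
        intro t ht
        obtain ⟨x, hx⟩ := (hp t ht).2
        refine ⟨x, fun z u v huv => ?_⟩
        have h2 := hx z u v huv
        have e1 := mfderiv_section (contMDiff_slice hΦ t) z x u
        have e2 := mfderiv_section (contMDiff_slice hΦ t) z x v
        refine lt_of_lt_of_eq h2 ?_
        exact congrArg₂ (fun a b : E2 × E2 => prodForm σ lam (Φ (t, (z, x))) a b) e1 e2)
    have hdiff : ∀ t : ℝ, ∃ e : (N × S2) ≃ₘ^∞⟮IM, IM⟯ (N × S2), ∀ p, e p = Ψ (t, p) := by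
      intro t
      exact ⟨{ toFun := fun p => Ψ (t, p)
               invFun := fun p => Ψ' (t, p)
               left_inv := fun p => a5 t p
               right_inv := fun p => a6 t p
               contMDiff_toFun := contMDiff_slice a1 t
               contMDiff_invFun := contMDiff_slice a2 t }, fun p => rfl⟩
    exact ⟨Ψ, ⟨a1, fun t _ => hdiff t, a3, fun p => (a4 p).trans (h1 p)⟩,
      fun t _ => ⟨hdiff t, fun p u v => a7 t p u v⟩⟩

end Pool.Agent.Results.MP_bb2326_gt.SoftIsotopyCriterion
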